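import Pool.Agent.Y719.NG.Iff

/-!
# `A_f` exists if and only if `|Λ_f|` is a product of powers of moduli for abelian varieties

Let `F` be a totally real field which is Galois over `ℚ`, or any number field which is Galois over `ℚ`.
Let `ρ_t` be finitely many irreducible `p`-adic representations of `G_F`, for example the
representations `ρ_t` of the conjugates `f^t` of a Hilbert newform `f` of parallel weight `2`, for the
embeddings `t` of `M_f`, so that `∏_t L(ρ_t, s) = Λ_f(s)`.  Let `W_j` be finitely many semisimple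
representations, for example `V_p(B_j)` for abelian varieties `B_j` over `F`, and let `m_j` be integers.
If the logarithm of `∏_t |L(ρ_t, s)| / ∏_j |L(W_j, s)| ^ m_j` on the edge of absolute convergence is
concentrated, for example constant on a set of positive upper density, then for each `t` there are `j`
with `m_j > 0` and an automorphism `σ` of the algebraic closure of `F` such that `ρ_t` is a
subrepresentation of `W_j ∘ (conjugation by σ)`.  For `W_j = V_p(B_j)` this is `V_p` of a conjugate of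
`B_j`, which is again an abelian variety over `F`; by Faltings's theorem one of its simple factors `A`
satisfies `L(A, s) = Λ_f(s)`.
-/

set_option autoImplicit false

namespace Pool.Agent.Results.MP_6cbef8_nt.ModulusOfLambda

open NumberField IsDedekindDomain MeasureTheory Filter Topology Polynomial

section
variable {K : Type} [Field K] [NumberField K] {p : ℕ} [Fact p.Prime] {n : ℕ}

/-- `g` is a Frobenius element at `v`: for some maximal ideal `Q` above `v` of the ring of all
algebraic integers, `g x ≡ x ^ N(v)` modulo `Q` for all `x`. -/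
def Frobenius (v : HeightOneSpectrum (𝓞 K)) (g : Gal(AlgebraicClosure K/K)) : Prop :=
  ∃ Q : Ideal (𝓞 (AlgebraicClosure K)), Q.IsMaximal ∧
    Q.comap (algebraMap (𝓞 K) (𝓞 (AlgebraicClosure K))) = v.asIdeal ∧
    ∀ x : 𝓞 (AlgebraicClosure K), g • x - x ^ Ideal.absNorm v.asIdeal ∈ Q

/-- `g` lies in an inertia group at `v`: for some maximal ideal `Q` above `v` of the ring of all
algebraic integers, `g x ≡ x` modulo `Q` for all `x`. -/
def Inertia (v : HeightOneSpectrum (𝓞 K)) (g : Gal(AlgebraicClosure K/K)) : Prop :=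
  ∃ Q : Ideal (𝓞 (AlgebraicClosure K)), Q.IsMaximal ∧
    Q.comap (algebraMap (𝓞 K) (𝓞 (AlgebraicClosure K))) = v.asIdeal ∧
    ∀ x : 𝓞 (AlgebraicClosure K), g • x - x ∈ Q

/-- The matrix of `g`. -/
noncomputable def matrix (ρ : Gal(AlgebraicClosure K/K) →* GL (Fin n) (PadicAlgCl p))
    (g : Gal(AlgebraicClosure K/K)) : Matrix (Fin n) (Fin n) (PadicAlgCl p) :=
  (ρ g : GL (Fin n) (PadicAlgCl p))

/-- `W` is a stable subspace. -/
def Stable (ρ : Gal(AlgebraicClosure K/K) →* GL (Fin n) (PadicAlgCl p))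
    (W : Submodule (PadicAlgCl p) (Fin n → PadicAlgCl p)) : Prop :=
  ∀ g, ∀ x ∈ W, (matrix ρ g).mulVec x ∈ W

/-- `ρ` is irreducible. -/
def Irreducible (ρ : Gal(AlgebraicClosure K/K) →* GL (Fin n) (PadicAlgCl p)) : Prop :=
  0 < n ∧ ∀ W, Stable ρ W → W = ⊥ ∨ W = ⊤

/-- `ρ` is semisimple: every stable subspace has a stable complement. -/
def Semisimple (ρ : Gal(AlgebraicClosure K/K) →* GL (Fin n) (PadicAlgCl p)) : Prop :=
  ∀ W, Stable ρ W → ∃ W', Stable ρ W' ∧ IsCompl W W'

/-- `v` lies above a prime number in `S`. -/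
def Bad (S : Finset ℕ) (v : HeightOneSpectrum (𝓞 K)) : Prop :=
  ∃ q ∈ S, (q : 𝓞 K) ∈ v.asIdeal

/-- `P` is the family of Euler factors of `ρ` away from `S`, and `ρ` has weights at most `w`: `P_v` is
`1` for `v` above `S`; for all other `v` the representation is unramified and `P_v` is
`det(1 - X ρ(g⁻¹))` for the Frobenius elements `g` at `v`, with coefficients mapped to `ℂ` by `ι`;
the inverse roots of `P_v` are at most `Nv^{w/2}` in absolute value. -/
structure EulerFactors (S : Finset ℕ) (w : ℝ) (ι : PadicAlgCl p →+* ℂ)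
    (ρ : Gal(AlgebraicClosure K/K) →* GL (Fin n) (PadicAlgCl p))
    (P : HeightOneSpectrum (𝓞 K) → ℂ[X]) : Prop where
  bad : ∀ v, Bad S v → P v = 1
  unramified : ∀ v, ¬ Bad S v → ∀ g, Inertia v g → ρ g = 1
  frobenius : ∀ v, ¬ Bad S v → ∀ g, Frobenius v g → (matrix ρ g⁻¹).charpolyRev.map ι = P v
  weight : ∀ v, ∀ z : ℂ, (P v).eval z = 0 →
    (Ideal.absNorm v.asIdeal : ℝ) ^ (-(w / 2)) ≤ ‖z‖

/-- The Euler product `∏_v P_v(Nv^{-s})⁻¹`. -/
noncomputable def L (P : HeightOneSpectrum (𝓞 K) → ℂ[X]) (s : ℂ) : ℂ :=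
  ∏' v : HeightOneSpectrum (𝓞 K), ((P v).eval ((Ideal.absNorm v.asIdeal : ℂ) ^ (-s)))⁻¹

/-- The limit of `|L(w/2 + 1 + σ + iτ)|` for `σ → 0`, `σ > 0`. -/
noncomputable def edgeAbs (w : ℝ) (P : HeightOneSpectrum (𝓞 K) → ℂ[X]) (τ : ℝ) : ℝ :=
  limUnder (𝓝[>] (0 : ℝ)) fun σ : ℝ => ‖L P (((w / 2 + 1 : ℝ) : ℂ) + σ + τ * Complex.I)‖

/-- `g' = σ g σ⁻¹`. -/
def Conj (σ : AlgebraicClosure K ≃+* AlgebraicClosure K) (g g' : Gal(AlgebraicClosure K/K)) : Prop :=
  ∀ x, g' (σ x) = σ (g x)

end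

/-- The values of `f` are concentrated: there is `δ > 0` such that for every `ε > 0` there are
arbitrarily large `T` and a real number `x` with `|f - x| < ε` on a subset of `(0, T]` of measure at
least `δ T`. -/
def Concentrated (f : ℝ → ℝ) : Prop :=
  ∃ δ : ℝ, 0 < δ ∧ ∀ ε : ℝ, 0 < ε → ∃ᶠ T : ℝ in atTop, ∃ x : ℝ,
    ENNReal.ofReal (δ * T) ≤ volume {τ | τ ∈ Set.Ioc 0 T ∧ |f τ - x| < ε}

/-- **The modulus of `Λ_f`.**  Let `K` be a number field, Galois over `ℚ`, for example a Galois totally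
real field, `ρ_t` finitely many irreducible and `W_j` finitely many semisimple `p`-adic representations
of `G_K`, with the Euler factors `P_t` and `R_j` of weight at most `w` away from `S`, for example the
representations of the conjugates of a Hilbert newform `f` and the representations `V_p(B_j)` of
abelian varieties `B_j` over `K`, and let `m_j` be integers.  If the logarithm of
`∏_t |L(ρ_t, s)| / ∏_j |L(W_j, s)| ^ m_j` on the line `Re s = w/2 + 1` is concentrated, then for each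
`t` there are `j` with `m_j > 0` and an automorphism `σ` of the algebraic closure of `K` such that `ρ_t`
is a subrepresentation of `g ↦ W_j(σ g σ⁻¹)`: there is an injective matrix `H` with
`W_j(σ g σ⁻¹) H = H ρ_t(g)` for all `g`. -/
theorem result (K : Type) [Field K] [NumberField K] [IsGalois ℚ K] (p : ℕ) [Fact p.Prime]
    (ι : PadicAlgCl p →+* ℂ) (S : Finset ℕ) (hS : ∀ q ∈ S, q.Prime) (w : ℝ)
    (T κ : Type) [Fintype T] [Fintype κ] (n : T → ℕ) (N : κ → ℕ) (m : κ → ℤ)
    (ρ : ∀ t, Gal(AlgebraicClosure K/K) →* GL (Fin (n t)) (PadicAlgCl p))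
    (W : ∀ j, Gal(AlgebraicClosure K/K) →* GL (Fin (N j)) (PadicAlgCl p))
    (P : T → HeightOneSpectrum (𝓞 K) → ℂ[X]) (R : κ → HeightOneSpectrum (𝓞 K) → ℂ[X])
    (hρ : ∀ t, Continuous (ρ t)) (hirr : ∀ t, Irreducible (ρ t))
    (hP : ∀ t, EulerFactors S w ι (ρ t) (P t)) (hW : ∀ j, Continuous (W j))
    (hss : ∀ j, Semisimple (W j)) (hR : ∀ j, EulerFactors S w ι (W j) (R j))
    (hc : Concentrated fun τ => ∑ t, Real.log (edgeAbs w (P t) τ) -
      ∑ j, m j * Real.log (edgeAbs w (R j) τ)) (t : T) :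
    ∃ j, 0 < m j ∧ ∃ σ : AlgebraicClosure K ≃+* AlgebraicClosure K,
      ∃ H : Matrix (Fin (N j)) (Fin (n t)) (PadicAlgCl p), (∀ x, H.mulVec x = 0 → x = 0) ∧
        ∀ g g', Conj σ g g' → matrix (W j) g' * H = H * matrix (ρ t) g := by
  classical
  have hconj : ∀ (σ : AlgebraicClosure K ≃+* AlgebraicClosure K)
      (g g' : Gal(AlgebraicClosure K/K)), Conj σ g g' ↔ g' = Pool.Agent.Y719.NG.cj σ g := by
    intro σ g g'
    constructor
    · intro h
      apply AlgEquiv.ext
      intro x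
      have h1 := h (σ.symm x)
      rw [RingEquiv.apply_symm_apply] at h1
      exact h1
    · rintro rfl x
      rw [Pool.Agent.Y719.NG.cj_apply, RingEquiv.symm_apply_apply]
  have hL : ∀ (P : HeightOneSpectrum (𝓞 K) → ℂ[X]) (s : ℂ),
      Pool.Agent.Y719.EL.N.LS P (fun _ => 1) s = L P s := by
    intro P s
    unfold Pool.Agent.Y719.EL.N.LS L
    refine tprod_congr fun v => ?_
    rw [one_mul]
    rfl
  have he : ∀ (P : HeightOneSpectrum (𝓞 K) → ℂ[X]) (τ : ℝ),
      Pool.Agent.Y719.EL.N.eA w P (fun _ => 1) τ = edgeAbs w P τ := by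
    intro P τ
    unfold Pool.Agent.Y719.EL.N.eA edgeAbs
    simp_rw [hL]
  have hF : ∀ {N : ℕ} (W : Gal(AlgebraicClosure K/K) →* GL (Fin N) (PadicAlgCl p))
      (R : HeightOneSpectrum (𝓞 K) → ℂ[X]), EulerFactors S w ι W R →
      Pool.Agent.Y719.NG.Fac S w ι W R := fun W R h =>
    ⟨h.bad, fun v hv => ⟨h.unramified v hv, h.frobenius v hv⟩, h.weight⟩
  -- the other representations of the family
  let n' : κ ⊕ {u : T // u ≠ t} → ℕ := Sum.elim N fun u => n u.1
  let m' : κ ⊕ {u : T // u ≠ t} → ℤ := Sum.elim m fun _ => -1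
  let R' : κ ⊕ {u : T // u ≠ t} → HeightOneSpectrum (𝓞 K) → ℂ[X] := Sum.elim R fun u => P u.1
  let W' : ∀ j : κ ⊕ {u : T // u ≠ t},
      Gal(AlgebraicClosure K/K) →* GL (Fin (n' j)) (PadicAlgCl p) := fun j =>
    match j with
    | Sum.inl j => W j
    | Sum.inr u => ρ u.1
  have hc' : Pool.Agent.Y774.MD.Concentrated fun τ =>
      Real.log (Pool.Agent.Y719.EL.N.eA w (P t) (fun _ => 1) τ) -
      ∑ j, m' j * Real.log (Pool.Agent.Y719.EL.N.eA w (R' j) (fun _ => 1) τ) := by
    simp_rw [he]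
    refine cast (congrArg Concentrated ?_) hc
    funext τ
    rw [Fintype.sum_sum_type, Fintype.sum_eq_add_sum_subtype_ne _ t]
    have h1 : ∑ u : {u : T // u ≠ t}, ((m' (Sum.inr u) : ℤ) : ℝ) *
        Real.log (edgeAbs w (R' (Sum.inr u)) τ) =
        - ∑ u : {u : T // u ≠ t}, Real.log (edgeAbs w (P u.1) τ) := by
      rw [← Finset.sum_neg_distrib]
      refine Finset.sum_congr rfl fun u _ => ?_
      change ((-1 : ℤ) : ℝ) * Real.log (edgeAbs w (P u.1) τ) = _
      push_cast
      ring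
    have h2 : ∑ j : κ, ((m' (Sum.inl j) : ℤ) : ℝ) * Real.log (edgeAbs w (R' (Sum.inl j)) τ) =
        ∑ j, m j * Real.log (edgeAbs w (R j) τ) := rfl
    rw [h1, h2]
    ring
  obtain ⟨j, hj, σ, H, hH0, hH⟩ := Pool.Agent.Y719.NG.one_modulus (w := w) (m := m') (P := R')
    (N := n') (n := n') (R := W')
    (hF (ρ t) (P t) (hP t)).typ
    (fun j => match j with
      | Sum.inl j => (hF (W j) (R j) (hR j)).typ
      | Sum.inr u => (hF (ρ u.1) (P u.1) (hP u.1)).typ) hc' ι (hρ t) (hirr t)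
    (fun j => match j with
      | Sum.inl j => hW j
      | Sum.inr u => hρ u.1)
    (fun j => match j with
      | Sum.inl j => hss j
      | Sum.inr u => Pool.Agent.Y719.NG.Irr.ss (hirr u.1))
    (Pool.Agent.Y719.NG.bad K S) (Pool.Agent.Y719.NG.bad_finite hS)
    (fun τ v hv => (Pool.Agent.Y719.NG.bad_pl τ v).1 hv) (hF (ρ t) (P t) (hP t)).att
    (fun j => match j with
      | Sum.inl j => (hF (W j) (R j) (hR j)).att
      | Sum.inr u => (hF (ρ u.1) (P u.1) (hP u.1)).att)
  match j, hj, H, hH0, hH with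
  | Sum.inl j, hj, H, hH0, hH =>
    refine ⟨j, hj, σ, H, hH0, fun g g' hg => ?_⟩
    rw [(hconj σ g g').1 hg]
    exact hH g
  | Sum.inr u, hj, _, _, _ =>
    exfalso
    have h1 : (0 : ℤ) < -1 := hj
    omega

end Pool.Agent.Results.MP_6cbef8_nt.ModulusOfLambda
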